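import Mathlib

/-!
# Cartan involutions exist, 1: the second cohomology of the adjoint representation

`Br V` is the space of the bilinear brackets on the real inner product space `V`. `IsLie ν`: `ν` is a Lie bracket. `kil ν` is its Killing form, and `HasK S ν` says
that it is `⟪S x, y⟫`, where `S` is a self-adjoint involution (`IsInv S`). Then every alternating two-cocycle `η` is the coboundary of the one-cochain
`x ↦ ∑ [e i, η (S e i, x)]`.
-/

set_option autoImplicit false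
set_option linter.unusedSectionVars false

open scoped InnerProductSpace
open ContinuousLinearMap

namespace Pool.Agent.Helper66.CI

variable {V : Type} [NormedAddCommGroup V] [InnerProductSpace ℝ V] [FiniteDimensional ℝ V]

/-- The bilinear brackets. -/
abbrev Br (V : Type) [NormedAddCommGroup V] [InnerProductSpace ℝ V] := V →L[ℝ] V →L[ℝ] V

/-- Lie brackets. -/
structure IsLie (ν : Br V) : Prop where
  alt : ∀ x, ν x x = 0
  jac : ∀ x y z, ν x (ν y z) = ν (ν x y) z + ν y (ν x z)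

/-- The Killing form of a bracket. -/
noncomputable def kil (ν : Br V) (x y : V) : ℝ := LinearMap.trace ℝ V ((ν x : V →ₗ[ℝ] V) ∘ₗ (ν y : V →ₗ[ℝ] V))

/-- Self-adjoint involutions. -/
structure IsInv (S : V →L[ℝ] V) : Prop where
  inv : ∀ x, S (S x) = x
  symm : ∀ x y, ⟪S x, y⟫_ℝ = ⟪x, S y⟫_ℝ

/-- The Killing form is `⟪S x, y⟫`. -/
def HasK (S : V →L[ℝ] V) (ν : Br V) : Prop := ∀ x y, kil ν x y = ⟪S x, y⟫_ℝ

theorem IsLie.skew {ν : Br V} (h : IsLie ν) (x y : V) : ν x y = -ν y x := by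
  have h1 := h.alt (x + y)
  simp only [map_add, add_apply, h.alt, zero_add, add_zero] at h1
  exact eq_neg_of_add_eq_zero_left (by rw [add_comm]; exact h1)

theorem alt_skew {η : Br V} (h : ∀ x, η x x = 0) (x y : V) : η x y = -η y x := by
  have h1 := h (x + y)
  simp only [map_add, add_apply, h, zero_add, add_zero] at h1
  exact eq_neg_of_add_eq_zero_left (by rw [add_comm]; exact h1)

theorem IsLie.ad {ν : Br V} (h : IsLie ν) (x y : V) :
    (ν (ν x y) : V →ₗ[ℝ] V) = (ν x : V →ₗ[ℝ] V) ∘ₗ (ν y : V →ₗ[ℝ] V) - (ν y : V →ₗ[ℝ] V) ∘ₗ (ν x : V →ₗ[ℝ] V) := by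
  ext z
  simp only [LinearMap.sub_apply, LinearMap.comp_apply, ContinuousLinearMap.coe_coe]
  rw [h.jac x y z]
  abel

/-- A derivation of a bracket. -/
def IsDer (ν : Br V) (D : V →L[ℝ] V) : Prop := ∀ x y, D (ν x y) = ν (D x) y + ν x (D y)

theorem IsLie.isDer {ν : Br V} (h : IsLie ν) (x : V) : IsDer ν (ν x) := fun y z => h.jac x y z

theorem kil_der {ν : Br V} {D : V →L[ℝ] V} (hD : IsDer ν D) (x y : V) :
    kil ν (D x) y + kil ν x (D y) = 0 := by
  have h1 : ∀ z : V, (ν (D z) : V →ₗ[ℝ] V) = (D : V →ₗ[ℝ] V) ∘ₗ (ν z : V →ₗ[ℝ] V) - (ν z : V →ₗ[ℝ] V) ∘ₗ (D : V →ₗ[ℝ] V) := by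
    intro z
    ext w
    simp only [LinearMap.sub_apply, LinearMap.comp_apply, ContinuousLinearMap.coe_coe]
    rw [hD z w]
    abel
  have h2 : (kil ν (D x) y + kil ν x (D y)) =
      LinearMap.trace ℝ V ((D : V →ₗ[ℝ] V) ∘ₗ ((ν x : V →ₗ[ℝ] V) ∘ₗ (ν y : V →ₗ[ℝ] V))) -
      LinearMap.trace ℝ V (((ν x : V →ₗ[ℝ] V) ∘ₗ (ν y : V →ₗ[ℝ] V)) ∘ₗ (D : V →ₗ[ℝ] V)) := by
    rw [kil, kil, h1, h1, LinearMap.sub_comp, LinearMap.comp_sub, map_sub, map_sub,
      LinearMap.comp_assoc, LinearMap.comp_assoc, LinearMap.comp_assoc]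
    ring
  rw [h2, LinearMap.trace_comp_comm', sub_self]

/-- Coboundary of a one-cochain. -/
noncomputable def d1 (ν : Br V) (φ : V →L[ℝ] V) (x y : V) : V := ν (φ x) y + ν x (φ y) - φ (ν x y)

/-- Linearised Jacobiator. -/
noncomputable def d2 (ν η : Br V) (x y z : V) : V :=
  η x (ν y z) + ν x (η y z) - η (ν x y) z - ν (η x y) z - η y (ν x z) - ν y (η x z)

section

variable {ι : Type} [Fintype ι] (e : OrthonormalBasis ι ℝ V) {S : V →L[ℝ] V} {ν : Br V}

theorem HasK.skew (hK : HasK S ν) {D : V →L[ℝ] V} (hD : IsDer ν D) (x y : V) :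
    ⟪S (D x), y⟫_ℝ = -⟪S x, D y⟫_ℝ := by
  have h1 := kil_der hD x y
  rw [hK, hK] at h1
  linarith

variable [CompleteSpace V]

omit [FiniteDimensional ℝ V] in
theorem sum_adj {W : Type} [AddCommGroup W] [Module ℝ W] (f : V →ₗ[ℝ] V →ₗ[ℝ] W) (R g : V →L[ℝ] V) :
    ∑ i, f (R (e i)) (g (e i)) = ∑ i, f (e i) (g (adjoint R (e i))) := by
  have h1 : ∀ i, f (R (e i)) (g (e i)) = ∑ j, ⟪e j, R (e i)⟫_ℝ • f (e j) (g (e i)) := by
    intro i
    conv_lhs => rw [← e.sum_repr' (R (e i))]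
    rw [map_sum, LinearMap.sum_apply]
    refine Finset.sum_congr rfl fun j _ => ?_
    rw [map_smul, LinearMap.smul_apply]
  have h2 : ∀ j, f (e j) (g (adjoint R (e j))) = ∑ i, ⟪e j, R (e i)⟫_ℝ • f (e j) (g (e i)) := by
    intro j
    conv_lhs => rw [← e.sum_repr' (adjoint R (e j))]
    rw [map_sum, map_sum]
    refine Finset.sum_congr rfl fun i _ => ?_
    rw [map_smul, map_smul, adjoint_inner_right, real_inner_comm]
  simp_rw [h1, h2]
  rw [Finset.sum_comm]

theorem adj_skew (hS : IsInv S) (hK : HasK S ν) {D : V →L[ℝ] V} (hD : IsDer ν D) (x : V) :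
    S (adjoint D x) = -D (S x) := by
  refine ext_inner_right ℝ fun y => ?_
  rw [inner_neg_left, hS.symm, adjoint_inner_left]
  have h1 := hK.skew hD (S x) (S y)
  rw [hS.symm (D (S x)), hS.inv, hS.inv] at h1
  linarith

omit [CompleteSpace V] in
theorem casimir (hS : IsInv S) (hν : IsLie ν) (hK : HasK S ν) (x : V) : ∑ i, ν (e i) (ν (S (e i)) x) = x := by
  refine ext_inner_right ℝ fun w => ?_
  rw [← hS.inv w, sum_inner]
  set y := S w
  have h1 : ∀ i, ⟪ν (e i) (ν (S (e i)) x), S y⟫_ℝ = ⟪e i, ν x (ν y (e i))⟫_ℝ := by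
    intro i
    rw [← hS.symm, hK.skew (hν.isDer (e i)), hν.skew (S (e i)) x, map_neg, inner_neg_left, neg_neg,
      hK.skew (hν.isDer x), hS.inv, hν.skew (e i) y, map_neg, inner_neg_right, neg_neg]
  simp_rw [h1]
  rw [← hS.symm, ← hK x y, kil, LinearMap.trace_eq_sum_inner _ e]
  rfl

theorem cas_inv (hS : IsInv S) (hν : IsLie ν) (hK : HasK S ν) (f : V →ₗ[ℝ] V →ₗ[ℝ] V) (y : V) :
    ∑ i, f (ν y (e i)) (S (e i)) = -∑ i, f (e i) (ν y (S (e i))) := by
  rw [sum_adj, ← Finset.sum_neg_distrib]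
  refine Finset.sum_congr rfl fun i _ => ?_
  rw [adj_skew hS hK (hν.isDer y), map_neg]

/-- The homotopy. -/
noncomputable def hom (e : OrthonormalBasis ι ℝ V) (S : V →L[ℝ] V) (ν η : Br V) : V →L[ℝ] V :=
  ∑ i, (ν (e i)).comp (η (S (e i)))

omit [FiniteDimensional ℝ V] [CompleteSpace V] in
theorem hom_apply (ν η : Br V) (x : V) : hom e S ν η x = ∑ i, ν (e i) (η (S (e i)) x) := by
  rw [hom, sum_apply]
  rfl

theorem whitehead (hS : IsInv S) (hν : IsLie ν) (hK : HasK S ν) {η : Br V} (hη : ∀ x, η x x = 0)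
    (h2 : ∀ x y z, d2 ν η x y z = 0) (y z : V) : η y z = d1 ν (hom e S ν η) y z := by
  have hf : ∀ y z : V, ∑ i, ν (e i) (η (ν (S (e i)) y) z) = -∑ i, ν (ν (e i) y) (η (S (e i)) z) := by
    intro y z
    have h1 := cas_inv e hS hν hK (LinearMap.mk₂ ℝ (fun a b => ν a (η b z)) (fun a b c => by simp) (fun a b c => by simp)
      (fun a b c => by simp) (fun a b c => by simp)) y
    simp only [LinearMap.mk₂_apply] at h1
    have h3 : ∀ i, ν (e i) (η (ν (S (e i)) y) z) = - ν (e i) (η (ν y (S (e i))) z) := by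
      intro i
      rw [hν.skew (S (e i)) y, map_neg, neg_apply, map_neg]
    have h4 : ∀ i, ν (ν (e i) y) (η (S (e i)) z) = - ν (ν y (e i)) (η (S (e i)) z) := by
      intro i
      rw [hν.skew (e i) y, map_neg, neg_apply]
    simp_rw [h3, h4, Finset.sum_neg_distrib, h1, neg_neg]
  have h3 : ∑ i, ν (e i) (d2 ν η (S (e i)) y z) = 0 := by
    simp_rw [h2, map_zero, Finset.sum_const_zero]
  have h4 : ∀ i, ν (e i) (d2 ν η (S (e i)) y z) =
      ν (e i) (η (S (e i)) (ν y z)) + ν (e i) (ν (S (e i)) (η y z)) - ν (e i) (η (ν (S (e i)) y) z)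
      + (ν (ν (e i) z) (η (S (e i)) y) + ν z (ν (e i) (η (S (e i)) y)))
      + ν (e i) (η (ν (S (e i)) z) y)
      - (ν (ν (e i) y) (η (S (e i)) z) + ν y (ν (e i) (η (S (e i)) z))) := by
    intro i
    rw [d2, map_sub, map_sub, map_sub, map_sub, map_add, hν.skew (η (S (e i)) y) z, map_neg,
      hν.jac (e i) z, alt_skew hη y (ν (S (e i)) z), map_neg, hν.jac (e i) y]
    abel
  simp_rw [h4] at h3
  rw [Finset.sum_sub_distrib, Finset.sum_add_distrib, Finset.sum_add_distrib, Finset.sum_sub_distrib,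
    Finset.sum_add_distrib, Finset.sum_add_distrib, Finset.sum_add_distrib, hf, hf, casimir e hS hν hK,
    ← map_sum, ← map_sum, ← hom_apply, ← hom_apply, ← hom_apply] at h3
  rw [d1, hν.skew (hom e S ν η y) z]
  rw [← sub_eq_zero, ← h3]
  abel

end

end Pool.Agent.Helper66.CI
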