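import Pool.Agent.Helper66.CI.Min

/-!
# Cartan involutions exist, 4: the first order condition

At a minimum of the norm on the orbit, the adjoint of a derivation is a derivation.
-/

set_option autoImplicit false
set_option linter.unusedSectionVars false
set_option maxSynthPendingDepth 3

open scoped InnerProductSpace Topology
open ContinuousLinearMap Filter NormedSpace

namespace Pool.Agent.Helper66.CI

variable {V : Type} [NormedAddCommGroup V] [InnerProductSpace ℝ V] [FiniteDimensional ℝ V]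

theorem kil_transport {μ ν : Br V} (g : V ≃L[ℝ] V) (hg : ∀ x y, ν (g x) (g y) = g (μ x y)) (x y : V) :
    kil ν (g x) (g y) = kil μ x y := by
  have h1 : ∀ x, (ν (g x) : V →ₗ[ℝ] V) = (g.toLinearEquiv).conj (μ x : V →ₗ[ℝ] V) := by
    intro x
    ext z
    rw [LinearEquiv.conj_apply_apply]
    have h2 := hg x (g.symm z)
    rw [g.apply_symm_apply] at h2
    exact h2
  rw [kil, kil, h1, h1, ← LinearEquiv.conj_comp, LinearMap.trace_conj']

theorem hasK_transport {S : V →L[ℝ] V} {μ ν : Br V} (hK : HasK S μ) (g : V ≃L[ℝ] V) (hg : ∀ x y, ν (g x) (g y) = g (μ x y))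
    (hSg : ∀ x y, ⟪S (g x), g y⟫_ℝ = ⟪S x, y⟫_ℝ) : HasK S ν := by
  intro x y
  obtain ⟨x, rfl⟩ := g.surjective x
  obtain ⟨y, rfl⟩ := g.surjective y
  rw [kil_transport g hg, hK, hSg]

theorem orb_trans {S : V →L[ℝ] V} {μ ν ν' : Br V} (hν : ν ∈ Orb S μ) (g : V ≃L[ℝ] V) (hg : ∀ x y, ν' (g x) (g y) = g (ν x y))
    (hSg : ∀ x y, ⟪S (g x), g y⟫_ℝ = ⟪S x, y⟫_ℝ) : ν' ∈ Orb S μ := by
  refine ⟨hasK_transport hν.1 g hg hSg, ?_⟩
  obtain ⟨g', hg'⟩ := hν.2
  refine ⟨g'.trans g, fun x y => ?_⟩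
  rw [ContinuousLinearEquiv.trans_apply, ContinuousLinearEquiv.trans_apply, ContinuousLinearEquiv.trans_apply, hg, hg']

section

variable [CompleteSpace V]

theorem exp_mul_neg (B : V →L[ℝ] V) : exp B * exp (-B) = 1 := by
  let _ := NormedAlgebra.restrictScalars ℚ ℝ (V →L[ℝ] V)
  rw [← exp_add_of_commute (Commute.neg_right (Commute.refl B)), add_neg_cancel, exp_zero]

/-- The one-parameter group. -/
noncomputable def ge (B : V →L[ℝ] V) : V ≃L[ℝ] V :=
  ContinuousLinearEquiv.equivOfInverse (exp B) (exp (-B))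
    (fun x => by
      have h1 := exp_mul_neg (-B)
      rw [neg_neg] at h1
      exact congrArg (fun f : V →L[ℝ] V => f x) h1)
    (fun x => congrArg (fun f : V →L[ℝ] V => f x) (exp_mul_neg B))

theorem ge_apply (B : V →L[ℝ] V) (x : V) : ge B x = exp B x := rfl

theorem ge_symm (B : V →L[ℝ] V) (x : V) : (ge B).symm x = exp (-B) x := rfl

theorem S_exp {S : V →L[ℝ] V} (hS : IsInv S) {B : V →L[ℝ] V} (hB : ∀ x, S (B x) = -B (S x)) (x : V) :
    S (exp B x) = exp (-B) (S x) := by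
  let _ := NormedAlgebra.restrictScalars ℚ ℝ (V →L[ℝ] V)
  have h0 : S * S = 1 := by
    ext x
    exact hS.inv x
  let u : (V →L[ℝ] V)ˣ := ⟨S, S, h0, h0⟩
  have h1 : exp ((u : V →L[ℝ] V) * B * ((u⁻¹ : (V →L[ℝ] V)ˣ) : V →L[ℝ] V)) = u * exp B * ((u⁻¹ : (V →L[ℝ] V)ˣ) : V →L[ℝ] V) :=
    exp_units_conj u B
  have h2 : (u : V →L[ℝ] V) * B * ((u⁻¹ : (V →L[ℝ] V)ˣ) : V →L[ℝ] V) = -B := by
    ext x
    change S (B (S x)) = - B x
    rw [hB, hS.inv]
  rw [h2] at h1
  rw [h1]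
  change _ = S (exp B (S (S x)))
  rw [hS.inv]

theorem ge_S {S : V →L[ℝ] V} (hS : IsInv S) {B : V →L[ℝ] V} (hB : ∀ x, S (B x) = -B (S x)) (hB' : adjoint B = B)
    (x y : V) : ⟪S (ge B x), ge B y⟫_ℝ = ⟪S x, y⟫_ℝ := by
  have h1 : adjoint (exp B) = exp B := by
    rw [← star_eq_adjoint, star_exp, star_eq_adjoint, hB']
  rw [ge_apply, ge_apply, S_exp hS hB, ← adjoint_inner_left, h1, ← mul_apply_eq_comp, exp_mul_neg]
  rfl

/-- The curve. -/
noncomputable def cur (B : V →L[ℝ] V) (ν : Br V) (t : ℝ) : Br V :=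
  (compL ℝ V V V (exp (t • B))).comp (((compL ℝ V V V).flip (exp (t • -B))).comp (ν.comp (exp (t • -B))))

theorem cur_apply (B : V →L[ℝ] V) (ν : Br V) (t : ℝ) (x y : V) :
    cur B ν t x y = exp (t • B) (ν (exp (t • -B) x) (exp (t • -B) y)) := rfl

theorem cur_zero (B : V →L[ℝ] V) (ν : Br V) : cur B ν 0 = ν := by
  ext x y
  rw [cur_apply, zero_smul, zero_smul, exp_zero]
  rfl

theorem cur_ge (B : V →L[ℝ] V) (ν : Br V) (t : ℝ) (x y : V) :
    cur B ν t (ge (t • B) x) (ge (t • B) y) = ge (t • B) (ν x y) := by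
  have h1 : ∀ x, exp (t • -B) (ge (t • B) x) = x := by
    intro x
    rw [smul_neg]
    exact (ge (t • B)).symm_apply_apply x
  rw [cur_apply, h1, h1, ge_apply]

theorem hasDerivAt_cur (B : V →L[ℝ] V) (ν : Br V) (x y : V) :
    HasDerivAt (fun t => cur B ν t x y) (act B ν x y) 0 := by
  have h1 : ∀ B : V →L[ℝ] V, HasDerivAt (fun t : ℝ => exp (t • B)) B 0 := by
    intro B
    have h2 := hasDerivAt_exp_smul_const (𝕂 := ℝ) B (0 : ℝ)
    rwa [zero_smul, exp_zero, one_mul] at h2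
  have h2 := (h1 (-B)).clm_apply (hasDerivAt_const (0 : ℝ) x)
  have h3 := (h1 (-B)).clm_apply (hasDerivAt_const (0 : ℝ) y)
  have h4 := ((hasDerivAt_const (0 : ℝ) ν).clm_apply h2).clm_apply h3
  have h5 := (h1 B).clm_apply h4
  refine h5.congr_deriv ?_
  simp [act_apply]
  abel

theorem act_comm {ν : Br V} {D E : V →L[ℝ] V} (hD : IsDer ν D) :
    act (D * E - E * D) ν = act D (act E ν) := by
  ext x y
  have h1 := hD (E x) y
  have h2 := hD x (E y)
  have h3 := congrArg E (hD x y)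
  rw [map_add] at h3
  simp only [act_apply, sub_apply, mul_apply_eq_comp, map_sub]
  rw [h1, h2, h3]
  abel

variable {ι : Type} [Fintype ι] (e : OrthonormalBasis ι ℝ V)

theorem ip_comm (ν η : Br V) : ip e ν η = ip e η ν := by
  unfold ip
  refine Finset.sum_congr rfl fun i _ => Finset.sum_congr rfl fun j _ => ?_
  rw [real_inner_comm]

theorem hasDerivAt_ip (B : V →L[ℝ] V) (ν : Br V) :
    HasDerivAt (fun t => ip e (cur B ν t) (cur B ν t)) (ip e ν (act B ν) + ip e ν (act B ν)) 0 := by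
  have h1 : ∀ i j, HasDerivAt (fun t => ⟪cur B ν t (e i) (e j), cur B ν t (e i) (e j)⟫_ℝ)
      (⟪ν (e i) (e j), act B ν (e i) (e j)⟫_ℝ + ⟪ν (e i) (e j), act B ν (e i) (e j)⟫_ℝ) 0 := by
    intro i j
    have h2 := (hasDerivAt_cur B ν (e i) (e j)).inner ℝ (hasDerivAt_cur B ν (e i) (e j))
    rw [cur_zero] at h2
    refine h2.congr_deriv ?_
    rw [real_inner_comm (ν (e i) (e j)) (act B ν (e i) (e j))]
  have h2 : HasDerivAt (fun t => ∑ i, ∑ j, ⟪cur B ν t (e i) (e j), cur B ν t (e i) (e j)⟫_ℝ)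
      (∑ i, ∑ j, (⟪ν (e i) (e j), act B ν (e i) (e j)⟫_ℝ + ⟪ν (e i) (e j), act B ν (e i) (e j)⟫_ℝ)) 0 :=
    HasDerivAt.fun_sum fun i _ => HasDerivAt.fun_sum fun j _ => h1 i j
  refine h2.congr_deriv ?_
  simp_rw [Finset.sum_add_distrib]
  rfl

theorem crit {S : V →L[ℝ] V} (hS : IsInv S) {μ ν : Br V} (hν : ν ∈ Orb S μ)
    (hm : ∀ ν' ∈ Orb S μ, ip e ν ν ≤ ip e ν' ν') {D : V →L[ℝ] V} (hD : IsDer ν D) : IsDer ν (adjoint D) := by
  set A : V →L[ℝ] V := D * adjoint D - adjoint D * D with hA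
  have hA1 : adjoint A = A := by
    rw [hA, map_sub, mul_def, mul_def, adjoint_comp, adjoint_comp, adjoint_adjoint]
  have hk := hν.1
  have h1 : ∀ x, S (adjoint D x) = -D (S x) := adj_skew hS hk hD
  have h2 : ∀ x, S (D x) = -adjoint D (S x) := by
    intro x
    refine ext_inner_right ℝ fun y => ?_
    rw [hk.skew hD, inner_neg_left, adjoint_inner_left]
  have hA2 : ∀ x, S (A x) = -A (S x) := by
    intro x
    simp only [hA, sub_apply, mul_apply_eq_comp, map_sub]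
    rw [h2, h1, h1, h2, map_neg, map_neg]
    abel
  have h3 : IsLocalMin (fun t => ip e (cur A ν t) (cur A ν t)) 0 := by
    refine Filter.Eventually.of_forall fun t => ?_
    change ip e (cur A ν 0) (cur A ν 0) ≤ _
    rw [cur_zero]
    refine hm _ (orb_trans hν (ge (t • A)) (cur_ge A ν t) (ge_S hS (fun x => ?_) ?_))
    · rw [smul_apply, smul_apply, map_smul, hA2, smul_neg]
    · rw [map_smulₛₗ, hA1]
      rfl
  have h4 := h3.hasDerivAt_eq_zero (hasDerivAt_ip e A ν)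
  have h5 : ip e ν (act A ν) = 0 := by linarith
  rw [hA, act_comm hD, ← adjoint_adjoint D, ← ip_act, adjoint_adjoint] at h5
  have h6 := eq_zero_of_ip e h5
  intro x y
  have h7 : act (adjoint D) ν x y = 0 := by rw [h6]; rfl
  rw [act_apply, sub_sub, sub_eq_zero] at h7
  exact h7

end

theorem exists_self_adj {S : V →L[ℝ] V} (hS : IsInv S) {μ : Br V} (hμ : IsLie μ) (hK : HasK S μ) [CompleteSpace V] :
    ∃ (g : V ≃L[ℝ] V) (ν : Br V), (∀ x y, ν (g x) (g y) = g (μ x y)) ∧ ∀ D, IsDer ν D → IsDer ν (adjoint D) := by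
  obtain ⟨ν, hν, hm⟩ := exists_min_ip (stdOrthonormalBasis ℝ V) hS hμ hK
  obtain ⟨g, hg⟩ := hν.2
  exact ⟨g, ν, hg, fun D hD => crit (stdOrthonormalBasis ℝ V) hS hν hm hD⟩

end Pool.Agent.Helper66.CI
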