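import Pool.Agent.Helper66.CI.Crit
import Pool.Agent.Helper96.SA.AdjDef

/-!
# Cartan involutions exist, 5: the theorem

Every real Lie algebra with nondegenerate Killing form `κ` has an involutive automorphism `θ` such that `-κ(x, θ y)` is an inner product.
-/

set_option autoImplicit false
set_option linter.unusedSectionVars false
set_option maxSynthPendingDepth 3

open scoped InnerProductSpace Topology
open ContinuousLinearMap Filter Module

namespace Pool.Agent.Helper66.CI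

theorem sig_basis {L : Type} [AddCommGroup L] [Module ℝ L] [FiniteDimensional ℝ L] {B : LinearMap.BilinForm ℝ L}
    (hB : LinearMap.IsSymm B) (hB' : B.SeparatingLeft) :
    ∃ (v : Basis (Fin (finrank ℝ L)) ℝ L) (s : Fin (finrank ℝ L) → ℝ), (∀ i, s i * s i = 1) ∧
      ∀ i j, B (v i) (v j) = if i = j then s i else 0 := by
  obtain ⟨v, hv⟩ := LinearMap.BilinForm.exists_orthogonal_basis hB
  have h0 : ∀ i, B (v i) (v i) ≠ 0 := hv.not_isOrtho_basis_self_of_separatingLeft hB'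
  have h1 : ∀ i, Real.sqrt |B (v i) (v i)| ≠ 0 := fun i => (Real.sqrt_pos.2 (abs_pos.2 (h0 i))).ne'
  refine ⟨v.unitsSMul fun i => (Units.mk0 _ (h1 i))⁻¹, fun i => B (v i) (v i) / |B (v i) (v i)|, fun i => ?_, fun i j => ?_⟩
  · rw [div_mul_div_comm, abs_mul_abs_self, div_self (mul_ne_zero (h0 i) (h0 i))]
  · rw [Basis.unitsSMul_apply, Basis.unitsSMul_apply, Units.smul_def, Units.smul_def]
    simp only [map_smul, LinearMap.smul_apply, smul_eq_mul, Units.val_inv_eq_inv_val, Units.val_mk0]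
    split_ifs with h
    · subst h
      have h2 : Real.sqrt |B (v i) (v i)| * Real.sqrt |B (v i) (v i)| = |B (v i) (v i)| := Real.mul_self_sqrt (abs_nonneg _)
      calc (Real.sqrt |B (v i) (v i)|)⁻¹ * ((Real.sqrt |B (v i) (v i)|)⁻¹ * B (v i) (v i))
          = B (v i) (v i) / (Real.sqrt |B (v i) (v i)| * Real.sqrt |B (v i) (v i)|) := by
            have h3 := h1 i
            field_simp
        _ = _ := by rw [h2]
    · have h2 : B (v i) (v j) = 0 := hv h
      rw [h2, mul_zero, mul_zero]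

section

variable {L : Type} [LieRing L] [LieAlgebra ℝ L] [FiniteDimensional ℝ L] [LieAlgebra.IsKilling ℝ L]

theorem lie_inj {a b : L} (h : ∀ y : L, ⁅a, y⁆ = ⁅b, y⁆) : a = b := by
  rw [← sub_eq_zero, ← LieDerivation.IsKilling.ad_apply_eq_zero_iff ℝ L (a - b)]
  ext y
  simp [h]

theorem exists_model : ∃ (φ : L ≃ₗ[ℝ] EuclideanSpace ℝ (Fin (finrank ℝ L))) (ν : Br (EuclideanSpace ℝ (Fin (finrank ℝ L)))),
    (∀ x y, ν (φ x) (φ y) = φ ⁅x, y⁆) ∧ ∀ D, IsDer ν D → IsDer ν (adjoint D) := by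
  have hk : LinearMap.IsSymm (killingForm ℝ L) := LieModule.traceForm_isSymm ℝ L L
  obtain ⟨v, s, hs, hv⟩ := sig_basis hk (LieAlgebra.IsKilling.killingForm_nondegenerate ℝ L).1
  set V := EuclideanSpace ℝ (Fin (finrank ℝ L))
  set E : OrthonormalBasis (Fin (finrank ℝ L)) ℝ V := EuclideanSpace.basisFun (Fin (finrank ℝ L)) ℝ
  set φ₀ : L ≃ₗ[ℝ] V := v.equiv E.toBasis (Equiv.refl _)
  have hφ : ∀ i, φ₀ (v i) = E i := fun i => by
    rw [Basis.equiv_apply, E.coe_toBasis, Equiv.refl_apply]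
  set S : V →L[ℝ] V := LinearMap.toContinuousLinearMap (E.toBasis.constr ℝ fun i => s i • E i)
  have hSE : ∀ i, S (E i) = s i • E i := fun i => by
    have h1 := E.toBasis.constr_basis ℝ (fun i => s i • E i) i
    rw [E.coe_toBasis] at h1
    exact h1
  set μ : Br V := (LinearMap.mk₂ ℝ (fun x y => φ₀ ⁅φ₀.symm x, φ₀.symm y⁆) (fun a b c => by simp) (fun a b c => by simp)
    (fun a b c => by simp) (fun a b c => by simp)).toContinuousBilinearMap
  have hμ : ∀ x y, μ x y = φ₀ ⁅φ₀.symm x, φ₀.symm y⁆ := fun x y => rfl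
  have hμ' : ∀ x y, μ (φ₀ x) (φ₀ y) = φ₀ ⁅x, y⁆ := fun x y => by
    rw [hμ, φ₀.symm_apply_apply, φ₀.symm_apply_apply]
  have hL : IsLie μ := by
    refine ⟨fun x => ?_, fun x y z => ?_⟩
    · rw [hμ, lie_self, map_zero]
    · rw [hμ, hμ, hμ, hμ, hμ, hμ, φ₀.symm_apply_apply, φ₀.symm_apply_apply, φ₀.symm_apply_apply, leibniz_lie, map_add]
  have hS : IsInv S := by
    constructor
    · intro x
      have h1 : (S : V →ₗ[ℝ] V) ∘ₗ (S : V →ₗ[ℝ] V) = LinearMap.id := by
        refine E.toBasis.ext fun i => ?_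
        rw [E.coe_toBasis]
        change S (S (E i)) = E i
        rw [hSE, map_smul, hSE, smul_smul, hs, one_smul]
      exact congrArg (fun f : V →ₗ[ℝ] V => f x) h1
    · intro x y
      have h1 : (innerₗ V).comp (S : V →ₗ[ℝ] V) = (innerₗ V).compl₂ (S : V →ₗ[ℝ] V) := by
        refine LinearMap.ext_basis E.toBasis E.toBasis fun i j => ?_
        rw [E.coe_toBasis]
        change ⟪S (E i), E j⟫_ℝ = ⟪E i, S (E j)⟫_ℝ
        rw [hSE, hSE, real_inner_smul_left, real_inner_smul_right]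
        rcases eq_or_ne i j with h | h
        · rw [h]
        · rw [E.orthonormal.2 h, mul_zero, mul_zero]
      exact congrArg (fun f : V →ₗ[ℝ] V →ₗ[ℝ] ℝ => f x y) h1
  have hK : HasK S μ := by
    have h1 : ∀ x y, kil μ (φ₀ x) (φ₀ y) = killingForm ℝ L x y := by
      intro x y
      have h2 : ∀ x, (μ (φ₀ x) : V →ₗ[ℝ] V) = φ₀.conj (LieAlgebra.ad ℝ L x) := by
        intro x
        refine LinearMap.ext fun z => ?_
        rw [LinearEquiv.conj_apply_apply, LieAlgebra.ad_apply]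
        change μ (φ₀ x) z = _
        rw [hμ, φ₀.symm_apply_apply]
      rw [kil, h2, h2, ← LinearEquiv.conj_comp, LinearMap.trace_conj', killingForm_apply_apply]
    intro x y
    obtain ⟨x, rfl⟩ := φ₀.surjective x
    obtain ⟨y, rfl⟩ := φ₀.surjective y
    rw [h1]
    have h3 : killingForm ℝ L = ((innerₗ V).comp ((S : V →ₗ[ℝ] V) ∘ₗ (φ₀ : L →ₗ[ℝ] V))).compl₂ (φ₀ : L →ₗ[ℝ] V) := by
      refine LinearMap.ext_basis v v fun i j => ?_
      rw [hv]
      change _ = ⟪S (φ₀ (v i)), φ₀ (v j)⟫_ℝ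
      rw [hφ, hφ, hSE, real_inner_smul_left]
      split_ifs with h
      · rw [h, real_inner_self_eq_norm_sq, E.norm_eq_one, one_pow, mul_one]
      · rw [E.orthonormal.2 h, mul_zero]
    rw [h3]
    rfl
  obtain ⟨g, ν, hg, hD⟩ := exists_self_adj hS hL hK
  refine ⟨φ₀.trans g.toLinearEquiv, ν, fun x y => ?_, hD⟩
  change ν (g (φ₀ x)) (g (φ₀ y)) = g (φ₀ ⁅x, y⁆)
  rw [hg, hμ']

theorem exists_theta : ∃ θ : L ≃ₗ⁅ℝ⁆ L, (∀ x, θ (θ x) = x) ∧ (∀ x y, killingForm ℝ L x (θ y) = killingForm ℝ L y (θ x)) ∧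
    ∀ x, x ≠ 0 → 0 < -killingForm ℝ L x (θ x) := by
  obtain ⟨φ, ν, hφ, hD⟩ := exists_model (L := L)
  have hν : IsLie ν := by
    refine ⟨fun x => ?_, fun x y z => ?_⟩
    · obtain ⟨x, rfl⟩ := φ.surjective x
      rw [hφ, lie_self, map_zero]
    · obtain ⟨x, rfl⟩ := φ.surjective x
      obtain ⟨y, rfl⟩ := φ.surjective y
      obtain ⟨z, rfl⟩ := φ.surjective z
      rw [hφ, hφ, hφ, hφ, hφ, hφ, leibniz_lie, map_add]
  -- the adjoints are inner derivations
  have h1 : ∀ x : L, ∃ x' : L, ∀ y, ⁅x', y⁆ = φ.symm (adjoint (ν (φ x)) (φ y)) := by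
    intro x
    let T : LieDerivation ℝ L L :=
      { toLinearMap := (φ.symm : EuclideanSpace ℝ (Fin (finrank ℝ L)) →ₗ[ℝ] L) ∘ₗ
          (adjoint (ν (φ x)) : EuclideanSpace ℝ (Fin (finrank ℝ L)) →ₗ[ℝ] EuclideanSpace ℝ (Fin (finrank ℝ L))) ∘ₗ
          (φ : L →ₗ[ℝ] EuclideanSpace ℝ (Fin (finrank ℝ L)))
        leibniz' := fun a b => by
          apply φ.injective
          change φ (φ.symm (adjoint (ν (φ x)) (φ ⁅a, b⁆))) =
            φ (⁅a, φ.symm (adjoint (ν (φ x)) (φ b))⁆ - ⁅b, φ.symm (adjoint (ν (φ x)) (φ a))⁆)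
          rw [φ.apply_symm_apply, ← hφ, hD _ (hν.isDer (φ x)), map_sub, ← hφ, ← hφ, φ.apply_symm_apply,
            φ.apply_symm_apply, hν.skew (φ b), sub_neg_eq_add, add_comm] }
    obtain ⟨x', hx'⟩ := LieDerivation.IsKilling.exists_eq_ad T
    refine ⟨x', fun y => ?_⟩
    have h2 : LieDerivation.ad ℝ L x' y = T y := by rw [hx']
    rw [LieDerivation.ad_apply_apply] at h2
    exact h2
  choose f hf using h1
  -- the key formula
  have hθ : ∀ x y : L, ⁅-f x, y⁆ = -φ.symm (adjoint (ν (φ x)) (φ y)) := fun x y => by rw [neg_lie, hf]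
  have hν' : ∀ x, ν (φ (-f x)) = -adjoint (ν (φ x)) := by
    intro x
    ext z : 1
    obtain ⟨z, rfl⟩ := φ.surjective z
    rw [hφ, hθ, map_neg, φ.apply_symm_apply]
    rfl
  have hinv : ∀ x, -f (-f x) = x := by
    intro x
    refine lie_inj fun y => ?_
    rw [hθ, hν', map_neg, adjoint_adjoint, neg_apply, map_neg, neg_neg, hφ, φ.symm_apply_apply]
  let θ : L ≃ₗ⁅ℝ⁆ L :=
    { toFun := fun x => -f x
      invFun := fun x => -f x
      map_add' := fun x y => lie_inj fun z => by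
        rw [hθ, add_lie, hθ, hθ, map_add, map_add, map_add, add_apply, map_add, neg_add]
      map_smul' := fun c x => lie_inj fun z => by
        have h2 : adjoint (ν (φ (c • x))) = c • adjoint (ν (φ x)) := by
          rw [map_smul, map_smul, map_smulₛₗ]
          rfl
        rw [hθ, RingHom.id_apply, smul_lie, hθ, h2, smul_apply, smul_neg, map_smul]
      map_lie' := fun {x y} => lie_inj fun z => by
        have h2 : ν (φ ⁅x, y⁆) = (ν (φ x)).comp (ν (φ y)) - (ν (φ y)).comp (ν (φ x)) := by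
          rw [← hφ]
          ext w : 1
          rw [sub_apply, comp_apply, comp_apply, hν.jac (φ x) (φ y) w]
          abel
        rw [hθ, h2, map_sub, adjoint_comp, adjoint_comp, lie_lie]
        simp only [hθ, map_neg, φ.apply_symm_apply, sub_apply, comp_apply, map_sub]
        abel
      left_inv := hinv
      right_inv := hinv }
  have hθf : ∀ x, θ x = -f x := fun x => rfl
  -- the inner product
  have hB : ∀ x y, killingForm ℝ L x (θ y) =
      -∑ i, ⟪adjoint (ν (φ x)) (stdOrthonormalBasis ℝ _ i), adjoint (ν (φ y)) (stdOrthonormalBasis ℝ _ i)⟫_ℝ := by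
    intro x y
    have h2 : ∀ x, φ.conj (LieAlgebra.ad ℝ L x) = (ν (φ x) : _ →ₗ[ℝ] _) := by
      intro x
      refine LinearMap.ext fun z => ?_
      rw [LinearEquiv.conj_apply_apply, LieAlgebra.ad_apply, ← hφ, φ.apply_symm_apply]
      rfl
    rw [killingForm_apply_apply, ← LinearMap.trace_conj' _ φ, LinearEquiv.conj_comp, h2, h2, hθf, hν',
      LinearMap.trace_eq_sum_inner _ (stdOrthonormalBasis ℝ _), ← Finset.sum_neg_distrib]
    refine Finset.sum_congr rfl fun i _ => ?_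
    rw [adjoint_inner_left]
    change ⟪_, ν (φ x) (-(adjoint (ν (φ y)) _))⟫_ℝ = _
    rw [map_neg, inner_neg_right]
  refine ⟨θ, hinv, fun x y => ?_, fun x hx => ?_⟩
  · rw [hB, hB]
    congr 1
    exact Finset.sum_congr rfl fun i _ => real_inner_comm _ _
  · rw [hB, neg_neg]
    refine lt_of_le_of_ne (Finset.sum_nonneg fun i _ => real_inner_self_nonneg) fun h => hx ?_
    have h2 := (Finset.sum_eq_zero_iff_of_nonneg (fun i _ => real_inner_self_nonneg)).1 h.symm
    have h3 : adjoint (ν (φ x)) = 0 := clm_ext_basis (stdOrthonormalBasis ℝ _) fun i =>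
      inner_self_eq_zero.1 (h2 i (Finset.mem_univ i))
    have h4 : ν (φ x) = 0 := by rw [← adjoint_adjoint (ν (φ x)), h3, map_zero]
    refine lie_inj fun y => ?_
    apply φ.injective
    rw [← hφ, h4, zero_lie, map_zero]
    rfl

/-- **Cartan**: every real Lie algebra with nondegenerate Killing form has a Cartan involution. -/
theorem exists_cartan : ∃ (θ : L ≃ₗ⁅ℝ⁆ L) (b : Basis (Fin (finrank ℝ L)) ℝ L), Pool.Agent.Helper96.SA.CartanBasis θ b := by
  obtain ⟨θ, h1, h2, h3⟩ := exists_theta (L := L)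
  let B : LinearMap.BilinForm ℝ L := -((killingForm ℝ L).compl₂ (θ : L →ₗ[ℝ] L))
  have hB : ∀ x y, B x y = -killingForm ℝ L x (θ y) := fun x y => rfl
  have hs : LinearMap.IsSymm B := ⟨fun x y => by rw [hB, hB, h2]; rfl⟩
  have hn : B.SeparatingLeft := by
    intro x hx
    by_contra h
    exact (h3 x h).ne' (hx x)
  obtain ⟨v, s, hv, hv'⟩ := sig_basis hs hn
  refine ⟨θ, v, h1, fun i j => ?_⟩
  rw [← hB, hv']
  split_ifs with h
  · have h4 := h3 (v i) (v.ne_zero i)
    rw [← hB, hv', if_pos rfl] at h4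
    nlinarith [hv i]
  · rfl

end

/-- Every simple real Lie algebra of finite dimension has a Cartan involution. -/
theorem exists_cartan_simple (L : Type) [LieRing L] [LieAlgebra ℝ L] [FiniteDimensional ℝ L] [LieAlgebra.IsSimple ℝ L] :
    ∃ (θ : L ≃ₗ⁅ℝ⁆ L) (b : Basis (Fin (finrank ℝ L)) ℝ L), Pool.Agent.Helper96.SA.CartanBasis θ b :=
  exists_cartan

end Pool.Agent.Helper66.CI
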