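import Pool.Agent.Helper66.CI.Rig

/-!
# Cartan involutions exist, 3: the minimum of the norm on an orbit

The orbit of a Lie bracket with Killing form `⟪S x, y⟫` (`Orb S μ`: the isomorphic brackets with the same Killing form) is closed. At a minimum of the norm on it,
the adjoint of a derivation is a derivation.
-/

set_option autoImplicit false
set_option linter.unusedSectionVars false
set_option maxSynthPendingDepth 3

open scoped InnerProductSpace Topology
open ContinuousLinearMap Filter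

namespace Pool.Agent.Helper66.CI

variable {V : Type} [NormedAddCommGroup V] [InnerProductSpace ℝ V] [FiniteDimensional ℝ V]

/-- The brackets with the same Killing form isomorphic to `μ`. -/
def Orb (S : V →L[ℝ] V) (μ : Br V) : Set (Br V) :=
  {ν | HasK S ν ∧ ∃ g : V ≃L[ℝ] V, ∀ x y, ν (g x) (g y) = g (μ x y)}

theorem continuous_kil (x y : V) : Continuous fun ν : Br V => kil ν x y := by
  have h1 : Continuous ((LinearMap.trace ℝ V).comp (ContinuousLinearMap.coeLM ℝ : (V →L[ℝ] V) →ₗ[ℝ] (V →ₗ[ℝ] V))) :=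
    LinearMap.continuous_of_finiteDimensional _
  have h2 : Continuous fun ν : Br V => (ν x).comp (ν y) := by fun_prop
  exact h1.comp h2

theorem isClosed_hasK (S : V →L[ℝ] V) : IsClosed {ν : Br V | HasK S ν} := by
  have h1 : {ν : Br V | HasK S ν} = ⋂ x, ⋂ y, {ν : Br V | kil ν x y = ⟪S x, y⟫_ℝ} := by
    ext ν
    simp [HasK]
  rw [h1]
  exact isClosed_iInter fun x => isClosed_iInter fun y => isClosed_eq (continuous_kil x y) continuous_const

theorem isClosed_isLie : IsClosed {ν : Br V | IsLie ν} := by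
  have h1 : {ν : Br V | IsLie ν} = (⋂ x, {ν : Br V | ν x x = 0}) ∩
      ⋂ x, ⋂ y, ⋂ z, {ν : Br V | ν x (ν y z) = ν (ν x y) z + ν y (ν x z)} := by
    ext ν
    simp only [Set.mem_ofPred_eq, Set.mem_inter_iff, Set.mem_iInter]
    exact ⟨fun h => ⟨h.alt, h.jac⟩, fun h => ⟨h.1, h.2⟩⟩
  rw [h1]
  refine IsClosed.inter (isClosed_iInter fun x => isClosed_eq (by fun_prop) continuous_const)
    (isClosed_iInter fun x => isClosed_iInter fun y => isClosed_iInter fun z => isClosed_eq (by fun_prop) (by fun_prop))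

theorem isClosed_orb {S : V →L[ℝ] V} (hS : IsInv S) {μ : Br V} (hμ : IsLie μ) : IsClosed (Orb S μ) := by
  refine isClosed_of_closure_subset fun ν hν => ?_
  have h1 : HasK S ν := closure_minimal (fun ν h => h.1) (isClosed_hasK S) hν
  have h2 : IsLie ν := closure_minimal (fun ν h => by
    obtain ⟨g, hg⟩ := h.2
    exact transport hμ g hg) isClosed_isLie hν
  obtain ⟨ν', ⟨h3, g', hg'⟩, h4⟩ := ((mem_closure_iff_frequently.1 hν).and_eventually (rigid hS h2 h1)).exists
  obtain ⟨g, hg⟩ := h4 (transport hμ g' hg')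
  refine ⟨h1, g'.trans g.symm, fun x y => ?_⟩
  apply g.injective
  rw [← hg, ContinuousLinearEquiv.trans_apply, ContinuousLinearEquiv.trans_apply, ContinuousLinearEquiv.trans_apply,
    g.apply_symm_apply, g.apply_symm_apply, g.apply_symm_apply, hg']

section

variable {ι : Type} [Fintype ι] (e : OrthonormalBasis ι ℝ V)

/-- The inner product of two brackets. -/
noncomputable def ip (ν η : Br V) : ℝ := ∑ i, ∑ j, ⟪ν (e i) (e j), η (e i) (e j)⟫_ℝ

theorem ip_self_nonneg (ν : Br V) : 0 ≤ ip e ν ν :=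
  Finset.sum_nonneg fun i _ => Finset.sum_nonneg fun j _ => real_inner_self_nonneg

theorem eq_zero_of_ip {ν : Br V} (h : ip e ν ν = 0) : ν = 0 := by
  have h1 : ∀ i j, ν (e i) (e j) = 0 := by
    intro i j
    have h2 := (Finset.sum_eq_zero_iff_of_nonneg (fun _ _ => Finset.sum_nonneg fun _ _ => real_inner_self_nonneg)).1 h i
      (Finset.mem_univ i)
    have h3 := (Finset.sum_eq_zero_iff_of_nonneg (fun j _ => real_inner_self_nonneg)).1 h2 j (Finset.mem_univ j)
    exact inner_self_eq_zero.1 h3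
  exact clm_ext_basis e fun i => clm_ext_basis e fun j => h1 i j

theorem le_ip (ν : Br V) (i j : ι) : ‖ν (e i) (e j)‖ ^ 2 ≤ ip e ν ν := by
  rw [← real_inner_self_eq_norm_sq]
  refine le_trans ?_ (Finset.single_le_sum (f := fun i => ∑ j, ⟪ν (e i) (e j), ν (e i) (e j)⟫_ℝ)
    (fun i _ => Finset.sum_nonneg fun j _ => real_inner_self_nonneg) (Finset.mem_univ i))
  exact Finset.single_le_sum (f := fun j => ⟪ν (e i) (e j), ν (e i) (e j)⟫_ℝ) (fun j _ => real_inner_self_nonneg)
    (Finset.mem_univ j)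

theorem continuous_ip : Continuous fun ν : Br V => ip e ν ν := by
  unfold ip
  fun_prop

theorem isCompact_ip {s : Set (Br V)} (hs : IsClosed s) (R : ℝ) : IsCompact (s ∩ {ν | ip e ν ν ≤ R}) := by
  refine Metric.isCompact_of_isClosed_isBounded (hs.inter (isClosed_le (continuous_ip e) continuous_const)) ?_
  let f : Br V →ₗ[ℝ] (ι → ι → V) :=
    { toFun := fun T i j => T (e i) (e j)
      map_add' := fun _ _ => rfl
      map_smul' := fun _ _ => rfl }
  have hf : LinearMap.ker f = ⊥ := by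
    rw [LinearMap.ker_eq_bot']
    intro T hT
    exact clm_ext_basis e fun i => clm_ext_basis e fun j => congrFun (congrFun hT i) j
  obtain ⟨K, hK0, hK1⟩ := LinearMap.exists_antilipschitzWith f hf
  refine (Metric.isBounded_iff_subset_closedBall 0).2 ⟨K * Real.sqrt R, fun ν hν => ?_⟩
  rw [mem_closedBall_zero_iff]
  refine (hK1.le_mul_norm (map_zero _) ν).trans ?_
  refine mul_le_mul_of_nonneg_left ?_ K.2
  refine (pi_norm_le_iff_of_nonneg (Real.sqrt_nonneg R)).2 fun i => (pi_norm_le_iff_of_nonneg (Real.sqrt_nonneg R)).2 fun j => ?_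
  exact Real.le_sqrt_of_sq_le ((le_ip e ν i j).trans hν.2)

theorem exists_min_ip {S : V →L[ℝ] V} (hS : IsInv S) {μ : Br V} (hμ : IsLie μ) (hK : HasK S μ) :
    ∃ ν ∈ Orb S μ, ∀ ν' ∈ Orb S μ, ip e ν ν ≤ ip e ν' ν' := by
  have h0 : μ ∈ Orb S μ := ⟨hK, ContinuousLinearEquiv.refl ℝ V, fun x y => rfl⟩
  obtain ⟨ν, hν, hm⟩ := (isCompact_ip e (isClosed_orb hS hμ) (ip e μ μ)).exists_isMinOn ⟨μ, h0, le_refl (ip e μ μ)⟩
    (continuous_ip e).continuousOn
  refine ⟨ν, hν.1, fun ν' hν' => ?_⟩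
  by_cases h : ip e ν' ν' ≤ ip e μ μ
  · exact hm ⟨hν', h⟩
  · exact hν.2.trans (not_le.1 h).le

/-- The infinitesimal action. -/
noncomputable def act (B : V →L[ℝ] V) (ν : Br V) : Br V :=
  (compL ℝ V V V B).comp ν - ν.comp B - ((compL ℝ V V V).flip B).comp ν

theorem act_apply (B : V →L[ℝ] V) (ν : Br V) (x y : V) : act B ν x y = B (ν x y) - ν (B x) y - ν x (B y) := rfl

theorem ip_act [CompleteSpace V] (B : V →L[ℝ] V) (ν η : Br V) : ip e (act B ν) η = ip e ν (act (adjoint B) η) := by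
  have h1 : ∀ i j, ⟪act B ν (e i) (e j), η (e i) (e j)⟫_ℝ = ⟪ν (e i) (e j), adjoint B (η (e i) (e j))⟫_ℝ
      - ⟪ν (B (e i)) (e j), η (e i) (e j)⟫_ℝ - ⟪ν (e i) (B (e j)), η (e i) (e j)⟫_ℝ := by
    intro i j
    rw [act_apply, inner_sub_left, inner_sub_left, adjoint_inner_right]
  have h2 : ∀ i j, ⟪ν (e i) (e j), act (adjoint B) η (e i) (e j)⟫_ℝ = ⟪ν (e i) (e j), adjoint B (η (e i) (e j))⟫_ℝ
      - ⟪ν (e i) (e j), η (adjoint B (e i)) (e j)⟫_ℝ - ⟪ν (e i) (e j), η (e i) (adjoint B (e j))⟫_ℝ := by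
    intro i j
    rw [act_apply, inner_sub_right, inner_sub_right]
  unfold ip
  simp_rw [h1, h2, Finset.sum_sub_distrib]
  have h3 : ∑ i, ∑ j, ⟪ν (B (e i)) (e j), η (e i) (e j)⟫_ℝ = ∑ i, ∑ j, ⟪ν (e i) (e j), η (adjoint B (e i)) (e j)⟫_ℝ := by
    rw [Finset.sum_comm, Finset.sum_comm (f := fun i j => ⟪ν (e i) (e j), η (adjoint B (e i)) (e j)⟫_ℝ)]
    refine Finset.sum_congr rfl fun j _ => ?_
    exact sum_adj e (LinearMap.mk₂ ℝ (fun a b => ⟪ν a (e j), η b (e j)⟫_ℝ) (fun a b c => by simp [inner_add_left])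
      (fun a b c => by simp [inner_smul_left]) (fun a b c => by simp [inner_add_right])
      (fun a b c => by simp [inner_smul_right])) B (ContinuousLinearMap.id ℝ V)
  have h4 : ∑ i, ∑ j, ⟪ν (e i) (B (e j)), η (e i) (e j)⟫_ℝ = ∑ i, ∑ j, ⟪ν (e i) (e j), η (e i) (adjoint B (e j))⟫_ℝ := by
    refine Finset.sum_congr rfl fun i _ => ?_
    exact sum_adj e (LinearMap.mk₂ ℝ (fun a b => ⟪ν (e i) a, η (e i) b⟫_ℝ) (fun a b c => by simp [inner_add_left])
      (fun a b c => by simp [inner_smul_left]) (fun a b c => by simp [inner_add_right])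
      (fun a b c => by simp [inner_smul_right])) B (ContinuousLinearMap.id ℝ V)
  rw [h3, h4]

end

end Pool.Agent.Helper66.CI
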