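import Pool.Agent.Helper66.CI.Coh

/-!
# Cartan involutions exist, 2: rigidity

If the Killing form of the Lie bracket `ν` is `⟪S x, y⟫` with a self-adjoint involution `S`, then all Lie brackets near `ν` are isomorphic to `ν`.
-/

set_option autoImplicit false
set_option linter.unusedSectionVars false
set_option maxSynthPendingDepth 3

open scoped InnerProductSpace Topology
open ContinuousLinearMap Filter

namespace Pool.Agent.Helper66.CI

variable {V : Type} [NormedAddCommGroup V] [InnerProductSpace ℝ V] [FiniteDimensional ℝ V]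

/-- The trilinear map `α x (β y z)`. -/
noncomputable def t1 (α β : Br V) : V →L[ℝ] V →L[ℝ] V →L[ℝ] V :=
  ((compL ℝ V (V →L[ℝ] V) (V →L[ℝ] V)).flip β).comp ((compL ℝ V V V).comp α)

/-- The trilinear map `α (β x y) z`. -/
noncomputable def t2 (α β : Br V) : V →L[ℝ] V →L[ℝ] V →L[ℝ] V :=
  (compL ℝ V V (V →L[ℝ] V) α).comp β

theorem t1_apply (α β : Br V) (x y z : V) : t1 α β x y z = α x (β y z) := rfl

theorem t2_apply (α β : Br V) (x y z : V) : t2 α β x y z = α (β x y) z := rfl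

/-- The linearised Jacobiator. -/
noncomputable def J2 (ν : Br V) : Br V →ₗ[ℝ] (V →L[ℝ] V →L[ℝ] V →L[ℝ] V) where
  toFun η := t1 η ν + t1 ν η - t2 η ν - t2 ν η - (t1 η ν).flip - (t1 ν η).flip
  map_add' a b := by
    ext x y z
    simp only [sub_apply, add_apply, flip_apply, t1_apply, t2_apply, map_add]
    abel
  map_smul' c a := by
    ext x y z
    simp only [sub_apply, add_apply, smul_apply, flip_apply, t1_apply, t2_apply, map_smul, RingHom.id_apply,
      smul_sub, smul_add]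

theorem J2_apply (ν η : Br V) (x y z : V) : J2 ν η x y z = d2 ν η x y z := rfl

/-- The quadratic part. -/
noncomputable def Q2 (c : Br V) : V →L[ℝ] V →L[ℝ] V →L[ℝ] V := t1 c c - t2 c c - (t1 c c).flip

theorem Q2_apply (c : Br V) (x y z : V) : Q2 c x y z = c x (c y z) - c (c x y) z - c y (c x z) := rfl

section

variable {ι : Type} [Fintype ι] (e : OrthonormalBasis ι ℝ V)

theorem clm_ext_basis {W : Type} [AddCommGroup W] [Module ℝ W] [TopologicalSpace W] {T : V →L[ℝ] W}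
    (h : ∀ i, T (e i) = 0) : T = 0 := by
  have h1 : (T : V →ₗ[ℝ] W) = 0 := by
    refine e.toBasis.ext fun i => ?_
    rw [e.coe_toBasis]
    exact h i
  ext x
  exact congrArg (fun f : V →ₗ[ℝ] W => f x) h1

/-- Evaluation at a basis. -/
noncomputable def evB : (V →L[ℝ] V →L[ℝ] V →L[ℝ] V) →ₗ[ℝ] (ι → ι → ι → V) where
  toFun T i j k := T (e i) (e j) (e k)
  map_add' _ _ := rfl
  map_smul' _ _ := rfl

theorem evB_inj {T : V →L[ℝ] V →L[ℝ] V →L[ℝ] V} (h : evB e T = 0) : T = 0 := by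
  refine clm_ext_basis e fun i => clm_ext_basis e fun j => clm_ext_basis e fun k => ?_
  exact congrFun (congrFun (congrFun h i) j) k

theorem norm_evB_Q2 (c : Br V) : ‖evB e (Q2 c)‖ ≤ 3 * ‖c‖ ^ 2 := by
  have h0 : (0 : ℝ) ≤ 3 * ‖c‖ ^ 2 := by positivity
  refine (pi_norm_le_iff_of_nonneg h0).2 fun i => (pi_norm_le_iff_of_nonneg h0).2 fun j =>
    (pi_norm_le_iff_of_nonneg h0).2 fun k => ?_
  change ‖Q2 c (e i) (e j) (e k)‖ ≤ _
  rw [Q2_apply]
  have h1 : ∀ a b d : ι, ‖c (e a) (c (e b) (e d))‖ ≤ ‖c‖ ^ 2 := by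
    intro a b d
    have h2 := le_opNorm₂ c (e a) (c (e b) (e d))
    have h3 := le_opNorm₂ c (e b) (e d)
    rw [e.norm_eq_one, mul_one] at h2
    rw [e.norm_eq_one, e.norm_eq_one, mul_one, mul_one] at h3
    nlinarith [norm_nonneg c, norm_nonneg (c (e b) (e d))]
  have h4 : ‖c (c (e i) (e j)) (e k)‖ ≤ ‖c‖ ^ 2 := by
    have h2 := le_opNorm₂ c (c (e i) (e j)) (e k)
    have h3 := le_opNorm₂ c (e i) (e j)
    rw [e.norm_eq_one, mul_one] at h2
    rw [e.norm_eq_one, e.norm_eq_one, mul_one, mul_one] at h3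
    nlinarith [norm_nonneg c, norm_nonneg (c (e i) (e j))]
  have h5 := norm_sub_le (c (e i) (c (e j) (e k)) - c (c (e i) (e j)) (e k)) (c (e j) (c (e i) (e k)))
  have h6 := norm_sub_le (c (e i) (c (e j) (e k))) (c (c (e i) (e j)) (e k))
  linarith [h1 i j k, h1 j i k]

end

theorem J2_of_isLie {ν c : Br V} (h : IsLie ν) (hc : IsLie (ν + c)) : J2 ν c = - Q2 c := by
  ext x y z
  have h1 := hc.jac x y z
  simp only [add_apply, map_add] at h1
  rw [J2_apply, d2, neg_apply, neg_apply, neg_apply, Q2_apply]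
  have h2 := h.jac x y z
  rw [h2] at h1
  rw [← sub_eq_zero] at h1 ⊢
  rw [← h1]
  abel

/-- The alternating brackets. -/
def altS (V : Type) [NormedAddCommGroup V] [InnerProductSpace ℝ V] : Submodule ℝ (Br V) where
  carrier := {c | ∀ x, c x x = 0}
  add_mem' {a b} ha hb x := by rw [add_apply, add_apply, ha x, hb x, add_zero]
  zero_mem' x := rfl
  smul_mem' r a ha x := by rw [smul_apply, smul_apply, ha x, smul_zero]

/-- The alternating two-cocycles. -/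
noncomputable def coc (ν : Br V) : Submodule ℝ (Br V) := altS V ⊓ LinearMap.ker (J2 ν)

section

variable {E : Type} [NormedAddCommGroup E] [NormedSpace ℝ E]

/-- The family of brackets. -/
noncomputable def fam (ν : Br V) (j : E →L[ℝ] Br V) (p : (V →L[ℝ] V) × E) : Br V :=
  (compL ℝ V V V (Ring.inverse (1 + p.1))).comp
    (((compL ℝ V V V).flip (1 + p.1)).comp ((ν + j p.2).comp (1 + p.1)))

theorem fam_apply (ν : Br V) (j : E →L[ℝ] Br V) (p : (V →L[ℝ] V) × E) (x y : V) :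
    fam ν j p x y = Ring.inverse (1 + p.1) ((ν + j p.2) ((1 + p.1) x) ((1 + p.1) y)) := rfl

theorem fam_zero (ν : Br V) (j : E →L[ℝ] Br V) : fam ν j 0 = ν := by
  ext x y
  rw [fam_apply]
  simp

theorem hasStrict_fam (ν : Br V) (j : E →L[ℝ] Br V) :
    ∃ f' : ((V →L[ℝ] V) × E) →L[ℝ] Br V, HasStrictFDerivAt (fam ν j) f' 0 ∧
      ∀ (A : V →L[ℝ] V) (c : E) (x y : V), f' (A, c) x y = d1 ν A x y + j c x y := by
  have hB : HasStrictFDerivAt (fun p : (V →L[ℝ] V) × E => (1 : V →L[ℝ] V) + p.1)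
      (ContinuousLinearMap.fst ℝ (V →L[ℝ] V) E) 0 := hasStrictFDerivAt_fst.const_add 1
  have hI : HasStrictFDerivAt (fun p : (V →L[ℝ] V) × E => Ring.inverse ((1 : V →L[ℝ] V) + p.1))
      ((-mulLeftRight ℝ (V →L[ℝ] V) ((1 : (V →L[ℝ] V)ˣ)⁻¹ : (V →L[ℝ] V)ˣ) ((1 : (V →L[ℝ] V)ˣ)⁻¹ : (V →L[ℝ] V)ˣ)).comp
        (ContinuousLinearMap.fst ℝ (V →L[ℝ] V) E)) 0 := by
    have h1 := hasStrictFDerivAt_ringInverse (𝕜 := ℝ) (1 : (V →L[ℝ] V)ˣ)
    have h2 : (((1 : (V →L[ℝ] V)ˣ)) : V →L[ℝ] V) = (1 : V →L[ℝ] V) + (0 : (V →L[ℝ] V) × E).1 := by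
      rw [Prod.fst_zero, add_zero]
      rfl
    rw [h2] at h1
    exact HasStrictFDerivAt.comp (f := fun p : (V →L[ℝ] V) × E => (1 : V →L[ℝ] V) + p.1) 0 h1 hB
  have hC : HasStrictFDerivAt (fun p : (V →L[ℝ] V) × E => ν + j p.2)
      (j.comp (ContinuousLinearMap.snd ℝ (V →L[ℝ] V) E)) 0 :=
    ((j.comp (ContinuousLinearMap.snd ℝ (V →L[ℝ] V) E)).hasStrictFDerivAt).const_add ν
  have h2 := HasStrictFDerivAt.comp (f := fun p : (V →L[ℝ] V) × E => (1 : V →L[ℝ] V) + p.1) 0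
    (((compL ℝ V V V).flip).hasStrictFDerivAt) hB
  have h4 := HasStrictFDerivAt.comp (f := fun p : (V →L[ℝ] V) × E => Ring.inverse ((1 : V →L[ℝ] V) + p.1)) 0
    ((compL ℝ V V V).hasStrictFDerivAt) hI
  have h5 := h4.clm_comp (h2.clm_comp (hC.clm_comp hB))
  refine ⟨_, h5, fun A c x y => ?_⟩
  simp only [Prod.fst_zero, Prod.snd_zero, map_zero, add_zero, Ring.inverse_one, d1]
  simp
  abel

end

theorem transport {μ ν : Br V} (h : IsLie μ) (g : V ≃L[ℝ] V) (hg : ∀ x y, ν (g x) (g y) = g (μ x y)) : IsLie ν := by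
  refine ⟨fun x => ?_, fun x y z => ?_⟩
  · obtain ⟨x, rfl⟩ := g.surjective x
    rw [hg, h.alt, map_zero]
  · obtain ⟨x, rfl⟩ := g.surjective x
    obtain ⟨y, rfl⟩ := g.surjective y
    obtain ⟨z, rfl⟩ := g.surjective z
    rw [hg, hg, hg, hg, hg, hg, h.jac, map_add]

theorem rigid {S : V →L[ℝ] V} (hS : IsInv S) {ν : Br V} (hν : IsLie ν) (hK : HasK S ν) :
    ∀ᶠ ν' in 𝓝 ν, IsLie ν' → ∃ g : V ≃L[ℝ] V, ∀ x y, ν' (g x) (g y) = g (ν x y) := by
  classical
  have : CompleteSpace V := FiniteDimensional.complete ℝ V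
  obtain ⟨C, hC⟩ := Submodule.exists_isCompl (coc ν)
  set e := stdOrthonormalBasis ℝ V
  -- lower bound
  obtain ⟨K, hK0, hK1⟩ : ∃ K : ℝ, 0 < K ∧ ∀ c ∈ C, c ∈ altS V → ‖c‖ ≤ K * ‖evB e (J2 ν c)‖ := by
    have h1 : LinearMap.ker (((evB e).comp (J2 ν)).comp (C ⊓ altS V : Submodule ℝ (Br V)).subtype) = ⊥ := by
      rw [LinearMap.ker_eq_bot']
      intro c hc
      have h2 : J2 ν (c : Br V) = 0 := evB_inj e hc
      have h3 : (c : Br V) ∈ coc ν := ⟨c.2.2, h2⟩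
      have h4 : (c : Br V) ∈ (coc ν ⊓ C : Submodule ℝ (Br V)) := ⟨h3, c.2.1⟩
      rw [hC.inf_eq_bot, Submodule.mem_bot] at h4
      exact Subtype.ext h4
    obtain ⟨K, hK0, hK1⟩ := LinearMap.exists_antilipschitzWith _ h1
    refine ⟨K, hK0, fun c hc hc' => ?_⟩
    have h2 := hK1.le_mul_norm (map_zero _) (⟨c, hc, hc'⟩ : (C ⊓ altS V : Submodule ℝ (Br V)))
    exact h2
  -- surjectivity
  obtain ⟨f', hf', hf''⟩ := hasStrict_fam ν C.subtypeL
  have hr : f'.range = ⊤ := by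
    rw [LinearMap.range_eq_top]
    intro η
    have h1 : η ∈ coc ν ⊔ C := by rw [hC.sup_eq_top]; trivial
    obtain ⟨k, hk, c, hc, rfl⟩ := Submodule.mem_sup.1 h1
    refine ⟨(hom e S ν k, ⟨c, hc⟩), ?_⟩
    ext x y
    refine (hf'' _ _ x y).trans ?_
    have h2 : ∀ x y z, d2 ν k x y z = 0 := fun x y z => by
      rw [← J2_apply, show J2 ν k = 0 from hk.2]
      rfl
    rw [← whitehead e hS hν hK hk.1 h2]
    rfl
  have hm := hf'.map_nhds_eq_of_surj hr
  rw [fam_zero] at hm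
  rw [← hm, eventually_map]
  have e1 : ∀ᶠ p : (V →L[ℝ] V) × C in 𝓝 0, IsUnit ((1 : V →L[ℝ] V) + p.1) := by
    have h1 : Tendsto (fun p : (V →L[ℝ] V) × C => (1 : V →L[ℝ] V) + p.1) (𝓝 0) (𝓝 (1 + (0 : (V →L[ℝ] V) × C).1)) :=
      (continuous_const.add continuous_fst).continuousAt
    rw [Prod.fst_zero, add_zero] at h1
    exact h1 (Units.isOpen.mem_nhds isUnit_one)
  have e2 : ∀ᶠ p : (V →L[ℝ] V) × C in 𝓝 0, 3 * K * ‖(p.2 : Br V)‖ < 1 := by
    have h1 : ContinuousAt (fun p : (V →L[ℝ] V) × C => 3 * K * ‖(p.2 : Br V)‖) 0 := by fun_prop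
    refine h1.eventually_lt continuousAt_const ?_
    simp
  filter_upwards [e1, e2] with p ⟨u, hu⟩ hp hL
  set g : V ≃L[ℝ] V := ContinuousLinearEquiv.unitsEquiv ℝ V u
  have hg : ∀ x, g x = (1 + p.1) x := fun x => by
    rw [ContinuousLinearEquiv.unitsEquiv_apply, hu]
  have hi : ∀ x, g (Ring.inverse (1 + p.1) x) = x := by
    intro x
    rw [hg, ← mul_apply_eq_comp, ← hu, Ring.mul_inverse_cancel _ u.isUnit]
    rfl
  have hf : ∀ x y, (ν + (p.2 : Br V)) (g x) (g y) = g (fam ν C.subtypeL p x y) := by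
    intro x y
    rw [fam_apply, hi, hg, hg]
    rfl
  have hc := transport hL g hf
  have hca : (p.2 : Br V) ∈ altS V := fun x => by
    have h1 := hc.alt x
    rwa [add_apply, add_apply, hν.alt, zero_add] at h1
  have h1 := hK1 _ p.2.2 hca
  rw [J2_of_isLie hν hc, map_neg, norm_neg] at h1
  have h2 := norm_evB_Q2 e (p.2 : Br V)
  have h3 : ‖(p.2 : Br V)‖ = 0 := by
    by_contra h4
    have h5 : 0 < ‖(p.2 : Br V)‖ := lt_of_le_of_ne (norm_nonneg _) (Ne.symm h4)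
    have h6 : ‖(p.2 : Br V)‖ ≤ K * (3 * ‖(p.2 : Br V)‖ ^ 2) := h1.trans (by gcongr)
    nlinarith
  rw [norm_eq_zero.1 h3, add_zero] at hf
  refine ⟨g.symm, fun x y => ?_⟩
  apply g.injective
  rw [← hf, g.apply_symm_apply, g.apply_symm_apply, g.apply_symm_apply]

end Pool.Agent.Helper66.CI
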